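import Mathlib

/-!
# Project FA (filling area): statements

Every compact oriented Riemannian surface whose boundary is the circle of length `2π`, without
shortcuts, has area at least `(16/π) ∑ 1/(2k+1)^3 = 14 ζ(3)/π`.
-/

set_option autoImplicit false

open Set Filter Topology Metric Function MeasureTheory
open scoped Manifold ContDiff Real NNReal

noncomputable section

namespace Pool.Agent.Y522.FA

/-- the Euclidean plane -/
abbrev E2 : Type := EuclideanSpace ℝ (Fin 2)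

/-- the circle of length `2π` -/
abbrev Circ : Type := AddCircle (2 * π)

/-- the standard basis of the plane -/
def bv (i : Fin 2) : E2 := EuclideanSpace.single i 1

/-- the point `(0, t)` of the boundary line of the half plane -/
def bp (t : ℝ) : E2 := t • bv 1

/-- the determinant of two covectors -/
def cr (P Q : E2 →L[ℝ] ℝ) : ℝ := P (bv 0) * Q (bv 1) - P (bv 1) * Q (bv 0)

/-- A compact oriented Riemannian surface in charts: finitely many oriented charts `φ i : U i → T i`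
onto relatively open subsets of the closed half plane `{z | 0 ≤ z 0}` with inverses `ψ i`, and in each
chart an orthonormal coframe `A i z` (so the metric is `v ↦ ‖A i z v‖ ^ 2`, the area density is
`det (A i z)`). The map `b` parametrizes the boundary. -/
structure Surf (M : Type) [MetricSpace M] [MeasurableSpace M] (μ : Measure M) (b : Circ → M) where
  N : ℕ
  U : Fin N → Set M
  φ : Fin N → M → E2
  ψ : Fin N → E2 → M
  A : Fin N → E2 → E2 →L[ℝ] E2
  openU : ∀ i, IsOpen (U i)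
  cover : ∀ x, ∃ i, x ∈ U i
  left : ∀ i, ∀ x ∈ U i, ψ i (φ i x) = x
  contφ : ∀ i, ContinuousOn (φ i) (U i)
  contψ : ∀ i, ContinuousOn (ψ i) (φ i '' U i)
  openT : ∀ i, ∃ O : Set E2, IsOpen O ∧ φ i '' U i = O ∩ {z | 0 ≤ z 0}
  bd : ∀ i, ∀ x ∈ U i, ((φ i x) 0 = 0 ↔ x ∈ range b)
  detA : ∀ i, ∀ z ∈ φ i '' U i, 0 < (A i z).det
  contA : ∀ i, ContinuousOn (A i) (φ i '' U i)
  dst : ∀ i, ∀ z ∈ φ i '' U i, ∀ ε : ℝ, 0 < ε → ∃ δ : ℝ, 0 < δ ∧
    ∀ w ∈ φ i '' U i, ∀ w' ∈ φ i '' U i, ‖w - z‖ < δ → ‖w' - z‖ < δ →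
      dist (ψ i w) (ψ i w') ≤ ‖A i z (w' - w)‖ + ε * ‖w' - w‖
  tr : ∀ i j, ∀ x ∈ U i, x ∈ U j → 0 < (φ i x) 0 → ∃ L : E2 →L[ℝ] E2,
    HasFDerivAt (fun z => φ j (ψ i z)) L (φ i x) ∧
      (A i (φ i x)).det = (A j (φ j x)).det * L.det
  area : ∀ i, ∀ B : Set M, B ⊆ U i → MeasurableSet B →
    μ B = ∫⁻ z in φ i '' B, ENNReal.ofReal (A i z).det

section defs

variable {M : Type} [MetricSpace M] [MeasurableSpace M] {μ : Measure M} {b : Circ → M}

/-- the image of a chart -/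
def Surf.T (S : Surf M μ b) (i : Fin S.N) : Set E2 := S.φ i '' S.U i

/-- the derivative of `F` at `x` in the chart `i` -/
def Surf.dc (S : Surf M μ b) (i : Fin S.N) (F : M → ℝ) (x : M) : E2 →L[ℝ] ℝ :=
  fderiv ℝ (fun z => F (S.ψ i z)) (S.φ i x)

/-- `F` is differentiable at the interior point `x` -/
def Surf.Dif (S : Surf M μ b) (F : M → ℝ) (x : M) : Prop :=
  ∀ i, x ∈ S.U i → 0 < (S.φ i x) 0 ∧ DifferentiableAt ℝ (fun z => F (S.ψ i z)) (S.φ i x)

/-- disjoint pieces of the charts -/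
def Surf.pc (S : Surf M μ b) (i : Fin S.N) : Set M := S.U i \ ⋃ k : {k // k < i}, S.U k.1

/-- the density of the two-form `dF ∧ dg` with respect to the area -/
def Surf.jac (S : Surf M μ b) (F g : M → ℝ) (x : M) : ℝ :=
  ∑ i, (S.pc i).indicator (fun x => cr (S.dc i F x) (S.dc i g x) / (S.A i (S.φ i x)).det) x

end defs

/-- the integral of `α dβ` over the circle -/
def bint (α β : ℝ → ℝ) : ℝ := ∫ t in (0 : ℝ)..(2 * π), α t * deriv β t

/-- the function `2 δ (π - δ)` on `[0, π]`, extended to an odd `2π`-periodic function -/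
def Bt (δ : ℝ) : ℝ := bint (fun u => dist (0 : Circ) (u : Circ)) (fun u => dist (δ : Circ) (u : Circ))

/-! ### Measure theory on the surface -/

/-- integration in a chart -/
def StInt : Prop :=
  ∀ (M : Type) [MetricSpace M] [MeasurableSpace M] [BorelSpace M] (μ : Measure M) (b : Circ → M)
    (S : Surf M μ b) (i : Fin S.N) (k : M → ℝ), AEStronglyMeasurable k μ →
    ∫ x in S.U i, k x ∂μ = ∫ z in S.T i, k (S.ψ i z) * (S.A i z).det

/-- almost everywhere statements in a chart -/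
def StAe : Prop :=
  ∀ (M : Type) [MetricSpace M] [MeasurableSpace M] [BorelSpace M] (μ : Measure M) (b : Circ → M)
    (S : Surf M μ b) (i : Fin S.N) (P : E2 → Prop), (∀ᵐ z, z ∈ S.T i → P z) →
    ∀ᵐ x ∂μ, x ∈ S.U i → P (S.φ i x)

/-- a compact surface has finite area -/
def StFin : Prop :=
  ∀ (M : Type) [MetricSpace M] [MeasurableSpace M] [BorelSpace M] [CompactSpace M] (μ : Measure M)
    (b : Circ → M), Surf M μ b → IsFiniteMeasure μ

/-- Lipschitz functions in charts -/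
def StLip : Prop :=
  ∀ (M : Type) [MetricSpace M] [MeasurableSpace M] [BorelSpace M] (μ : Measure M) (b : Circ → M)
    (S : Surf M μ b) (F : M → ℝ) (K : ℝ≥0), LipschitzWith K F →
    (∀ i, ∀ z ∈ S.T i, ∃ (C : ℝ≥0) (δ : ℝ), 0 < δ ∧
      LipschitzOnWith C (fun z => F (S.ψ i z)) (S.T i ∩ ball z δ)) ∧
    ∀ x, S.Dif F x → ∀ i, x ∈ S.U i → ∀ v, |S.dc i F x v| ≤ K * ‖S.A i (S.φ i x) v‖

/-- Rademacher's theorem on the surface -/
def StRad : Prop :=
  ∀ (M : Type) [MetricSpace M] [MeasurableSpace M] [BorelSpace M] (μ : Measure M) (b : Circ → M)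
    (S : Surf M μ b) (F : M → ℝ) (K : ℝ≥0), LipschitzWith K F → ∀ᵐ x ∂μ, S.Dif F x

/-- the density `jac` does not depend on the chart and is integrable -/
def StJac : Prop :=
  ∀ (M : Type) [MetricSpace M] [MeasurableSpace M] [BorelSpace M] [CompactSpace M] (μ : Measure M)
    (b : Circ → M) (S : Surf M μ b) (F g : M → ℝ) (K K' : ℝ≥0), LipschitzWith K F →
    LipschitzWith K' g →
    (∀ x, S.Dif F x → S.Dif g x → ∀ i, x ∈ S.U i →
      S.jac F g x = cr (S.dc i F x) (S.dc i g x) / (S.A i (S.φ i x)).det) ∧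
    Integrable (S.jac F g) μ

/-! ### Stokes -/

/-- Stokes' theorem for Lipschitz functions in the half plane -/
def StEStokes : Prop :=
  ∀ (O K : Set E2) (u v : E2 → ℝ), IsOpen O → IsCompact K → K ⊆ O →
    (∀ z, z ∉ K → u z = 0) →
    (∀ z ∈ O, 0 ≤ z 0 → ∃ (C : ℝ≥0) (δ : ℝ), 0 < δ ∧
      LipschitzOnWith C u ((O ∩ {z | 0 ≤ z 0}) ∩ ball z δ) ∧
      LipschitzOnWith C v ((O ∩ {z | 0 ≤ z 0}) ∩ ball z δ)) →
    ∫ z in O ∩ {z | 0 ≤ z 0}, cr (fderiv ℝ u z) (fderiv ℝ v z) =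
      - ∫ t : ℝ, u (bp t) * deriv (fun t => v (bp t)) t

/-- Stokes' theorem in a chart -/
def StChart : Prop :=
  ∀ (M : Type) [MetricSpace M] [MeasurableSpace M] [BorelSpace M] [CompactSpace M] (μ : Measure M)
    (b : Circ → M) (S : Surf M μ b) (i : Fin S.N) (F g : M → ℝ) (K K' : ℝ≥0), LipschitzWith K F →
    LipschitzWith K' g → ∀ C : Set M, IsCompact C → C ⊆ S.U i → (∀ x, x ∉ C → F x = 0) →
    ∫ x, S.jac F g x ∂μ =
      - ∫ t : ℝ, (S.T i).indicator (fun z => F (S.ψ i z)) (bp t) *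
          deriv (fun t => g (S.ψ i (bp t))) t

/-- Lipschitz partition of unity on a compact metric space -/
def StPart : Prop :=
  ∀ (M : Type) [MetricSpace M] [CompactSpace M] (N : ℕ) (U : Fin N → Set M),
    (∀ i, IsOpen (U i)) → (∀ x, ∃ i, x ∈ U i) →
    ∃ (ρ : Fin N → M → ℝ) (K : ℝ≥0) (C : Fin N → Set M), (∀ i, LipschitzWith K (ρ i)) ∧
      (∀ i x, 0 ≤ ρ i x ∧ ρ i x ≤ 1) ∧ (∀ x, ∑ i, ρ i x = 1) ∧
      (∀ i, IsCompact (C i)) ∧ (∀ i, C i ⊆ U i) ∧ ∀ i x, x ∉ C i → ρ i x = 0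

/-- `∫ dF ∧ dg` vanishes if `F` vanishes on the boundary -/
def StZero : Prop :=
  ∀ (M : Type) [MetricSpace M] [MeasurableSpace M] [BorelSpace M] [CompactSpace M] (μ : Measure M)
    (b : Circ → M) (S : Surf M μ b) (F g : M → ℝ) (K K' : ℝ≥0), LipschitzWith K F →
    LipschitzWith K' g → (∀ t, F (b t) = 0) → ∫ x, S.jac F g x ∂μ = 0

/-- local form of Stokes' theorem at the boundary -/
def StLoc : Prop :=
  ∀ (M : Type) [MetricSpace M] [MeasurableSpace M] [BorelSpace M] [CompactSpace M] (μ : Measure M)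
    (b : Circ → M) (S : Surf M μ b), Continuous b → (∀ s t, dist s t ≤ dist (b s) (b t)) →
    ∀ θ : Circ, ∃ (η ε : ℝ), 0 < η ∧ |ε| = 1 ∧ ∀ (F g : M → ℝ) (K K' C C' : ℝ≥0),
      LipschitzWith K F → LipschitzWith K' g → LipschitzWith C (fun t => F (b t)) →
      LipschitzWith C' (fun t => g (b t)) → (∀ t, η ≤ dist t θ → F (b t) = 0) →
      ∫ x, S.jac F g x ∂μ = ε * bint (fun t => F (b (t : Circ))) (fun t => g (b (t : Circ)))

/-- Stokes' theorem on the surface. The functions on the boundary circle are assumed to be Lipschitz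
with respect to the circle. -/
def StStokes : Prop :=
  ∀ (M : Type) [MetricSpace M] [MeasurableSpace M] [BorelSpace M] [CompactSpace M] (μ : Measure M)
    (b : Circ → M) (S : Surf M μ b), Continuous b → (∀ s t, dist s t ≤ dist (b s) (b t)) →
    ∃ ε : ℝ, |ε| = 1 ∧ ∀ (F g : M → ℝ) (K K' C C' : ℝ≥0), LipschitzWith K F →
      LipschitzWith K' g → LipschitzWith C (fun t => F (b t)) →
      LipschitzWith C' (fun t => g (b t)) →
      ∫ x, S.jac F g x ∂μ = ε * bint (fun t => F (b (t : Circ))) (fun t => g (b (t : Circ)))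

/-! ### The calibration -/

/-- the distance functions of the circle -/
def StBt : Prop :=
  (∀ δ : ℝ, 0 ≤ δ → δ ≤ π → Bt δ = 2 * δ * (π - δ)) ∧ (∀ δ : ℝ, Bt (-δ) = - Bt δ) ∧
    (∀ δ : ℝ, Bt (δ + 2 * π) = Bt δ) ∧
    ∀ s t : ℝ, bint (fun u => dist (s : Circ) (u : Circ)) (fun u => dist (t : Circ) (u : Circ)) =
      Bt (t - s)

/-- the pointwise inequality of the calibration -/
def StComass : Prop :=
  ∀ (N : ℕ) (p : ℕ → E2) (s : Finset ℕ), (∀ j, ‖p j‖ ≤ 1) → (∀ n ∈ s, 0 < n ∧ 2 * n < N) →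
    |∑ n ∈ s, 2 / (N : ℝ) ^ 2 * ∑ j ∈ Finset.range N, ∑ k ∈ Finset.range N,
      Real.sin (n * ((2 * π / N * k) - (2 * π / N * j))) * (p j 0 * p k 1 - p j 1 * p k 0)| ≤ 1

/-- the boundary values, as a Riemann sum -/
def StRiem : Prop :=
  ∀ n : ℕ, Odd n → Tendsto (fun N : ℕ => 2 / (N : ℝ) ^ 2 * ∑ j ∈ Finset.range N,
    ∑ k ∈ Finset.range N, Real.sin (n * ((2 * π / N * k) - (2 * π / N * j))) *
      Bt ((2 * π / N * k) - (2 * π / N * j))) atTop (𝓝 (16 / (π * n ^ 3)))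

/-- the area bound in the abstract setting -/
def StArea : Prop :=
  ∀ (M : Type) [MetricSpace M] [MeasurableSpace M] [BorelSpace M] [CompactSpace M] (μ : Measure M)
    (b : Circ → M), Surf M μ b → Continuous b → (∀ s t, dist s t ≤ dist (b s) (b t)) →
    ENNReal.ofReal (16 / π * ∑' k : ℕ, 1 / (2 * (k : ℝ) + 1) ^ 3) ≤ μ univ

end Pool.Agent.Y522.FA
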