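import Pool.Agent.Y365.FA.Int
import Pool.Agent.Y721.FA.Lip
import Pool.Agent.Y430.FA.Jac
import Pool.Agent.Y79.FA.EStokes
import Pool.Agent.Y165.FA.Chart
import Pool.Agent.Y657.FA.Part
import Pool.Agent.Y944.FA.Zero
import Pool.Agent.Y812.FA.Loc
import Pool.Agent.Y944.FA.Glob
import Pool.Agent.Y657.FA.Bt
import Pool.Agent.Y79.FA.Comass
import Pool.Agent.Y44.FA.Riem
import Pool.Agent.Y44.FA.Area
import Pool.Agent.Y657.FA.Chol
import Pool.Agent.H170.FA.Gram
import Pool.Agent.H170.FA.Dst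
import Pool.Agent.Y987.FA.Tr
import Pool.Agent.Y878.FA.Bd
import Pool.Agent.Y878.FA.Bridge

/-!
# Project FA (filling area): assembly
-/

set_option autoImplicit false

open Set Filter Topology Metric Function MeasureTheory Bundle
open scoped Manifold ContDiff Real NNReal

noncomputable section

namespace Pool.Agent.Y522.FA

theorem rad : StRad := Pool.Agent.Y721.FA.stRad Pool.Agent.Y365.FA.stAe

theorem jacob : StJac :=
  Pool.Agent.Y430.FA.stJac Pool.Agent.Y721.FA.stLip rad Pool.Agent.Y365.FA.stFin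

theorem chart : StChart :=
  Pool.Agent.Y165.FA.stChart Pool.Agent.Y365.FA.stInt Pool.Agent.Y721.FA.stLip rad jacob
    Pool.Agent.Y79.FA.stEStokes

theorem zero : StZero :=
  Pool.Agent.Y944.FA.stZero chart Pool.Agent.Y657.FA.stPart jacob rad

theorem stokes : StStokes :=
  Pool.Agent.Y944.FA.stStokes (Pool.Agent.Y812.FA.stLoc chart zero jacob rad) zero jacob rad
    Pool.Agent.Y657.FA.stPart

theorem area : StArea :=
  Pool.Agent.Y44.FA.stArea stokes jacob rad Pool.Agent.Y721.FA.stLip Pool.Agent.Y365.FA.stFin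
    Pool.Agent.Y79.FA.stComass (Pool.Agent.Y44.FA.stRiem Pool.Agent.Y657.FA.stBt)
    Pool.Agent.Y657.FA.stBt

theorem bridge : StBridge :=
  Pool.Agent.Y878.FA.stBridge Pool.Agent.Y657.FA.stChol Pool.Agent.H170.FA.stGram
    Pool.Agent.H170.FA.stDst Pool.Agent.Y987.FA.stTr Pool.Agent.Y878.FA.stBd

/-- the area bound for Mathlib's Riemannian manifolds -/
theorem riem_area (M : Type) [MetricSpace M] [ChartedSpace (EuclideanHalfSpace 2) M]
    [IsManifold (𝓡∂ 2) ∞ M] [RiemannianBundle (fun x : M => TangentSpace (𝓡∂ 2) x)]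
    [IsContMDiffRiemannianBundle (𝓡∂ 2) ∞ E2 (fun x : M => TangentSpace (𝓡∂ 2) x)]
    [IsRiemannianManifold (𝓡∂ 2) M] [CompactSpace M] [MeasurableSpace M] [BorelSpace M]
    (μ : Measure M) (b : Circ → M) (hM : Orientable M) (hμ : IsArea μ)
    (hr : range b = (𝓡∂ 2).boundary M) (hb : Continuous b)
    (hd : ∀ s t, dist s t ≤ dist (b s) (b t)) :
    ENNReal.ofReal (16 / π * ∑' k : ℕ, 1 / (2 * (k : ℝ) + 1) ^ 3) ≤ μ univ := by
  obtain ⟨S⟩ := bridge M μ b hM hμ hr
  exact area M μ b S hb hd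

end Pool.Agent.Y522.FA
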