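import Pool.Agent.Y522.FA.Stm

/-!
# Project FA (filling area): from Mathlib's Riemannian manifolds to charts with coframes
-/

set_option autoImplicit false

open Set Filter Topology Metric Function MeasureTheory Bundle
open scoped Manifold ContDiff Real NNReal

noncomputable section

namespace Pool.Agent.Y522.FA

section defs

variable {M : Type} [TopologicalSpace M] [ChartedSpace (EuclideanHalfSpace 2) M]

/-- the coordinates of the chart `e`, with values in the plane -/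
def co (e : OpenPartialHomeomorph M (EuclideanHalfSpace 2)) : M → E2 := e.extend (𝓡∂ 2)

/-- the parametrization given by the chart `e` -/
def pa (e : OpenPartialHomeomorph M (EuclideanHalfSpace 2)) : E2 → M := (e.extend (𝓡∂ 2)).symm

/-- the tangent vector at `pa e z` with the coordinates `v` in the chart `e` -/
def tv (e : OpenPartialHomeomorph M (EuclideanHalfSpace 2)) (z v : E2) :
    TangentSpace (𝓡∂ 2) (pa e z) :=
  mfderivWithin 𝓘(ℝ, E2) (𝓡∂ 2) (pa e) (range (𝓡∂ 2)) z v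

variable (M) in
/-- The manifold is orientable: there are smooth charts (in the maximal atlas) which cover `M` and
whose coordinate changes have positive Jacobian determinants. -/
def Orientable : Prop :=
  ∃ 𝒜 : Set (OpenPartialHomeomorph M (EuclideanHalfSpace 2)),
    𝒜 ⊆ IsManifold.maximalAtlas (𝓡∂ 2) ∞ M ∧ (∀ x, ∃ e ∈ 𝒜, x ∈ e.source) ∧
      ∀ e ∈ 𝒜, ∀ e' ∈ 𝒜, ∀ x, x ∈ e.source → x ∈ e'.source →
        0 < (fderivWithin ℝ (fun z => co e' (pa e z)) (range (𝓡∂ 2)) (co e x)).det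

variable [RiemannianBundle (fun x : M => TangentSpace (𝓡∂ 2) x)]

/-- the Gram matrix of the coordinate vector fields of the chart `e` -/
def gram (e : OpenPartialHomeomorph M (EuclideanHalfSpace 2)) (z : E2) :
    Matrix (Fin 2) (Fin 2) ℝ :=
  Matrix.of fun i j => inner ℝ (tv e z (bv i)) (tv e z (bv j))

/-- `μ` is the Riemannian area measure: its density in every chart is the square root of the
determinant of the Gram matrix. -/
def IsArea [MeasurableSpace M] (μ : Measure M) : Prop :=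
  ∀ e ∈ IsManifold.maximalAtlas (𝓡∂ 2) ∞ M, ∀ B : Set M, B ⊆ e.source → MeasurableSet B →
    μ B = ∫⁻ z in co e '' B, ENNReal.ofReal (√ (gram e z).det)

end defs

/-- the upper triangular square root of the positive matrix `((p, q), (q, r))` -/
def chol (p q r : ℝ) : E2 →L[ℝ] E2 :=
  LinearMap.toContinuousLinearMap
    { toFun := fun v => (√ p * v 0 + q / √ p * v 1) • bv 0 + (√ ((p * r - q ^ 2) / p) * v 1) • bv 1
      map_add' := fun v w => by
        ext i; fin_cases i <;> simp [bv] <;> ring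
      map_smul' := fun c v => by
        ext i; fin_cases i <;> simp [bv] <;> ring }

/-- properties of the square root -/
def StChol : Prop :=
  (∀ p q r : ℝ, 0 < p → 0 < p * r - q ^ 2 →
    (chol p q r).det = √ (p * r - q ^ 2) ∧
    ∀ v, ‖chol p q r v‖ ^ 2 = p * v 0 ^ 2 + 2 * q * (v 0 * v 1) + r * v 1 ^ 2) ∧
  ∀ (s : Set E2) (p q r : E2 → ℝ), ContinuousOn p s → ContinuousOn q s → ContinuousOn r s →
    (∀ z ∈ s, 0 < p z) → (∀ z ∈ s, 0 < p z * r z - q z ^ 2) →
    ContinuousOn (fun z => chol (p z) (q z) (r z)) s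

/-- the Gram matrix: continuity, positivity, norms of tangent vectors -/
def StGram : Prop :=
  ∀ (M : Type) [MetricSpace M] [ChartedSpace (EuclideanHalfSpace 2) M] [IsManifold (𝓡∂ 2) ∞ M]
    [RiemannianBundle (fun x : M => TangentSpace (𝓡∂ 2) x)]
    [IsContMDiffRiemannianBundle (𝓡∂ 2) ∞ E2 (fun x : M => TangentSpace (𝓡∂ 2) x)],
    ∀ e ∈ IsManifold.maximalAtlas (𝓡∂ 2) ∞ M,
      (∀ i j, ContinuousOn (fun z => gram e z i j) (co e '' e.source)) ∧
      (∀ z ∈ co e '' e.source, ∀ v, v ≠ 0 → 0 < ‖tv e z v‖) ∧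
      (∀ z ∈ co e '' e.source, 0 < gram e z 0 0 ∧ 0 < (gram e z).det) ∧
      ∀ z ∈ co e '' e.source, ∀ v, ‖tv e z v‖ ^ 2 =
        gram e z 0 0 * v 0 ^ 2 + 2 * gram e z 0 1 * (v 0 * v 1) + gram e z 1 1 * v 1 ^ 2

/-- the distance in a chart -/
def StDst : Prop :=
  ∀ (M : Type) [MetricSpace M] [ChartedSpace (EuclideanHalfSpace 2) M] [IsManifold (𝓡∂ 2) ∞ M]
    [RiemannianBundle (fun x : M => TangentSpace (𝓡∂ 2) x)]
    [IsContMDiffRiemannianBundle (𝓡∂ 2) ∞ E2 (fun x : M => TangentSpace (𝓡∂ 2) x)]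
    [IsRiemannianManifold (𝓡∂ 2) M],
    ∀ e ∈ IsManifold.maximalAtlas (𝓡∂ 2) ∞ M, ∀ (w w' : E2) (C : ℝ),
      segment ℝ w w' ⊆ co e '' e.source →
      (∀ y ∈ segment ℝ w w', ‖tv e y (w' - w)‖ ≤ C) → dist (pa e w) (pa e w') ≤ C

/-- coordinate changes at interior points -/
def StTr : Prop :=
  ∀ (M : Type) [MetricSpace M] [ChartedSpace (EuclideanHalfSpace 2) M] [IsManifold (𝓡∂ 2) ∞ M]
    [RiemannianBundle (fun x : M => TangentSpace (𝓡∂ 2) x)],
    ∀ e ∈ IsManifold.maximalAtlas (𝓡∂ 2) ∞ M, ∀ e' ∈ IsManifold.maximalAtlas (𝓡∂ 2) ∞ M,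
      ∀ x, x ∈ e.source → x ∈ e'.source → 0 < (co e x) 0 → ∃ L : E2 →L[ℝ] E2,
        HasFDerivAt (fun z => co e' (pa e z)) L (co e x) ∧
          fderivWithin ℝ (fun z => co e' (pa e z)) (range (𝓡∂ 2)) (co e x) = L ∧
          (gram e (co e x)).det = (gram e' (co e' x)).det * L.det ^ 2

/-- the boundary in a chart -/
def StBd : Prop :=
  ∀ (M : Type) [MetricSpace M] [ChartedSpace (EuclideanHalfSpace 2) M] [IsManifold (𝓡∂ 2) ∞ M],
    ∀ e ∈ IsManifold.maximalAtlas (𝓡∂ 2) ∞ M, ∀ x ∈ e.source,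
      ((co e x) 0 = 0 ↔ x ∈ (𝓡∂ 2).boundary M)

/-- the bridge -/
def StBridge : Prop :=
  ∀ (M : Type) [MetricSpace M] [ChartedSpace (EuclideanHalfSpace 2) M] [IsManifold (𝓡∂ 2) ∞ M]
    [RiemannianBundle (fun x : M => TangentSpace (𝓡∂ 2) x)]
    [IsContMDiffRiemannianBundle (𝓡∂ 2) ∞ E2 (fun x : M => TangentSpace (𝓡∂ 2) x)]
    [IsRiemannianManifold (𝓡∂ 2) M] [CompactSpace M] [MeasurableSpace M] [BorelSpace M]
    (μ : Measure M) (b : Circ → M), Orientable M → IsArea μ → range b = (𝓡∂ 2).boundary M →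
    Nonempty (Surf M μ b)

end Pool.Agent.Y522.FA
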