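import Pool.Agent.Y522.FA.Main

/-!
# A lower bound for the area of all orientable fillings of the circle

Every compact orientable Riemannian surface `M` (of any genus) whose boundary is the circle of
length `2π`, without shortcuts, has area at least `(16/π) ∑ 1/(2k+1)^3 = 14 ζ(3)/π > 1.705 π`.
The manifold, the Riemannian metric and its distance are those of Mathlib; `Plane`, `Half` and
`model` only give names to Mathlib's objects, which keeps the statement short.
-/

set_option autoImplicit false

open Set MeasureTheory Bundle
open scoped Manifold ContDiff Real

noncomputable section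

namespace Pool.Agent.Y522.FA.ZetaThree

/-- the Euclidean plane -/
def Plane : Type := EuclideanSpace ℝ (Fin 2)

instance : NormedAddCommGroup Plane :=
  (inferInstance : NormedAddCommGroup (EuclideanSpace ℝ (Fin 2)))

instance : NormedSpace ℝ Plane := (inferInstance : NormedSpace ℝ (EuclideanSpace ℝ (Fin 2)))

instance : MeasureSpace Plane := (inferInstance : MeasureSpace (EuclideanSpace ℝ (Fin 2)))

/-- the closed half plane -/
def Half : Type := EuclideanHalfSpace 2

instance : TopologicalSpace Half := (inferInstance : TopologicalSpace (EuclideanHalfSpace 2))

/-- Mathlib's model `𝓡∂ 2` of surfaces with boundary: the closed half plane in the plane -/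
def model : ModelWithCorners ℝ Plane Half := 𝓡∂ 2

section defs

variable {M : Type} [TopologicalSpace M] [ChartedSpace Half M]

/-- the coordinates of the chart `e`, with values in the plane -/
def coord (e : OpenPartialHomeomorph M Half) : M → Plane := e.extend model

/-- the parametrization given by the chart `e` -/
def param (e : OpenPartialHomeomorph M Half) : Plane → M := (e.extend model).symm

/-- the Jacobian determinant at `x` of the coordinate change from `e` to `e'` -/
def jacobian (e e' : OpenPartialHomeomorph M Half) (x : M) : ℝ :=
  (fderivWithin ℝ (fun z => coord e' (param e z)) (range model) (coord e x)).det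

variable (M) in
/-- The manifold is orientable: there are smooth charts (in the maximal atlas) which cover `M` and
whose coordinate changes have positive Jacobian determinants. -/
def Orientable : Prop :=
  ∃ 𝒜 : Set (OpenPartialHomeomorph M Half),
    𝒜 ⊆ IsManifold.maximalAtlas model ∞ M ∧ (∀ x, ∃ e ∈ 𝒜, x ∈ e.source) ∧
      ∀ e ∈ 𝒜, ∀ e' ∈ 𝒜, ∀ x, x ∈ e.source → x ∈ e'.source → 0 < jacobian e e' x

/-- the differential at `z` of the parametrization given by the chart `e` -/
def dparam (e : OpenPartialHomeomorph M Half) (z : Plane) :
    Plane →L[ℝ] TangentSpace model (param e z) :=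
  mfderivWithin 𝓘(ℝ, Plane) model (param e) (range model) z

/-- the `i`-th coordinate vector at `param e z` of the chart `e` -/
def coordVec (e : OpenPartialHomeomorph M Half) (z : Plane)
    (i : Fin 2) : TangentSpace model (param e z) :=
  dparam e z (EuclideanSpace.single i (1 : ℝ) : EuclideanSpace ℝ (Fin 2))

variable [RiemannianBundle (fun x : M => TangentSpace model x)]

/-- the Gram matrix of the coordinate vectors of the chart `e` -/
def gram (e : OpenPartialHomeomorph M Half) (z : Plane) :
    Matrix (Fin 2) (Fin 2) ℝ :=
  Matrix.of fun i j => inner ℝ (coordVec e z i) (coordVec e z j)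

/-- `μ` is the Riemannian area: its density in every smooth chart is the square root of the
determinant of the Gram matrix. -/
def IsArea [MeasurableSpace M] (μ : Measure M) : Prop :=
  ∀ e ∈ IsManifold.maximalAtlas model ∞ M, ∀ B : Set M, B ⊆ e.source → MeasurableSet B →
    μ B = ∫⁻ z in coord e '' B, ENNReal.ofReal (√ (gram e z).det)

end defs

/-- Let `M` be a compact orientable Riemannian surface and `b` a parametrization of its boundary by
the circle of length `2π` such that paths in `M` give no shortcuts between boundary points (in
particular: `M` isometrically fills the circle). Then the area of `M` is at least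
`(16/π) ∑ 1/(2k+1)^3`. -/
theorem result (M : Type) [MetricSpace M] [CompactSpace M] [cM : ChartedSpace Half M]
    [iM : IsManifold model ∞ M] [rM : RiemannianBundle (fun x : M => TangentSpace model x)]
    [sM : IsContMDiffRiemannianBundle model ∞ Plane (fun x : M => TangentSpace model x)]
    [dM : IsRiemannianManifold model M] [MeasurableSpace M] [BorelSpace M]
    (hM : Orientable M) (μ : Measure M) (hμ : IsArea μ)
    (b : AddCircle (2 * π) → M) (hb : Continuous b) (hr : range b = model.boundary M)
    (hd : ∀ s t, dist s t ≤ dist (b s) (b t)) :
    ENNReal.ofReal (16 / π * ∑' k : ℕ, 1 / (2 * (k : ℝ) + 1) ^ 3) ≤ μ univ := by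
  exact @Pool.Agent.Y522.FA.riem_area M _ cM iM rM sM dM _ _ _ μ b hM hμ hr hb hd

end Pool.Agent.Y522.FA.ZetaThree
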